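import Mathlib
import Pool.Agent.H24.MR.InterfaceMR

/-!
Duality principle and sums over 1-spaced points.
-/

set_option autoImplicit false

open Finset

namespace Pool.Agent.H37.MR

open Pool.Agent.H24.MR

theorem norm_nit (n : ℕ) (t : ℝ) : ‖nit n t‖ = 1 := by
  unfold nit
  rw [show -((t * Real.log n : ℝ) : ℂ) * Complex.I = ((-(t * Real.log n) : ℝ) : ℂ) * Complex.I by
    push_cast; ring]
  exact Complex.norm_exp_ofReal_mul_I _

theorem conj_nit (n : ℕ) (t : ℝ) : (starRingEnd ℂ) (nit n t) = nit n (-t) := by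
  unfold nit
  rw [← Complex.exp_conj, map_mul, map_neg, Complex.conj_ofReal, Complex.conj_I]
  congr 1
  push_cast
  ring

theorem nit_add (n : ℕ) (s t : ℝ) : nit n (s + t) = nit n s * nit n t := by
  unfold nit
  rw [← Complex.exp_add]
  congr 1
  push_cast
  ring

theorem nit_mul (m n : ℕ) (t : ℝ) (hm : m ≠ 0) (hn : n ≠ 0) :
    nit (m * n) t = nit m t * nit n t := by
  unfold nit
  rw [← Complex.exp_add]
  congr 1
  have : Real.log ((m * n : ℕ) : ℝ) = Real.log m + Real.log n := by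
    push_cast
    exact Real.log_mul (by exact_mod_cast hm) (by exact_mod_cast hn)
  rw [this]
  push_cast
  ring

/-- duality principle (Halasz-Montgomery inequality) -/
theorem dual (S : Finset ℝ) (N : Finset ℕ) (a : ℕ → ℂ) (w : ℕ → ℝ) (M D : ℝ)
    (hw : ∀ n ∈ N, 0 ≤ w n) (hwa : ∀ n ∈ N, a n ≠ 0 → 0 < w n) (hM0 : 0 ≤ M)
    (hM : ∀ t ∈ S, ∑ s ∈ S, ‖∑ n ∈ N, (w n : ℂ) * nit n (t - s)‖ ≤ M)
    (hD : ∑ n ∈ N, ‖a n‖ ^ 2 / w n ≤ D) :
    ∑ t ∈ S, ‖∑ n ∈ N, a n * nit n t‖ ^ 2 ≤ D * M := by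
  set A : ℝ → ℂ := fun t => ∑ n ∈ N, a n * nit n t with hA
  set Q : ℝ := ∑ t ∈ S, ‖A t‖ ^ 2 with hQ
  set c : ℕ → ℂ := fun n => ∑ t ∈ S, (starRingEnd ℂ) (A t) * nit n t with hc
  have hQ0 : 0 ≤ Q := Finset.sum_nonneg fun t _ => by positivity
  have hD0 : 0 ≤ D := le_trans (Finset.sum_nonneg fun n hn => div_nonneg (by positivity) (hw n hn)) hD
  have e1 : (Q : ℂ) = ∑ n ∈ N, a n * c n := by
    have : (Q : ℂ) = ∑ t ∈ S, (starRingEnd ℂ) (A t) * A t := by
      rw [hQ]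
      push_cast
      refine Finset.sum_congr rfl fun t _ => ?_
      rw [mul_comm, Complex.mul_conj, Complex.normSq_eq_norm_sq]
      push_cast
      rfl
    rw [this]
    simp only [hc, Finset.mul_sum]
    rw [Finset.sum_comm]
    refine Finset.sum_congr rfl fun t _ => ?_
    rw [hA]
    simp only
    rw [Finset.mul_sum]
    refine Finset.sum_congr rfl fun n _ => ?_
    ring
  have e2 : Q ≤ ∑ n ∈ N, (‖a n‖ / Real.sqrt (w n)) * (Real.sqrt (w n) * ‖c n‖) := by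
    have h1 : Q = ‖(Q : ℂ)‖ := by rw [Complex.norm_real, Real.norm_of_nonneg hQ0]
    rw [h1, e1]
    refine (norm_sum_le _ _).trans (Finset.sum_le_sum fun n hn => ?_)
    rw [norm_mul]
    by_cases h : a n = 0
    · simp [h]
    · have := hwa n hn h
      have h2 : Real.sqrt (w n) ≠ 0 := (Real.sqrt_pos.2 this).ne'
      field_simp
      exact le_refl _
  have e3 : ∑ n ∈ N, w n * ‖c n‖ ^ 2 ≤ Q * M := by
    have h1 : ((∑ n ∈ N, w n * ‖c n‖ ^ 2 : ℝ) : ℂ) =
        ∑ t ∈ S, ∑ s ∈ S, (starRingEnd ℂ) (A t) * A s * ∑ n ∈ N, (w n : ℂ) * nit n (t - s) := by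
      push_cast
      have : ∀ n, ((‖c n‖ : ℝ) : ℂ) ^ 2 = ∑ t ∈ S, ∑ s ∈ S,
          (starRingEnd ℂ) (A t) * A s * nit n (t - s) := by
        intro n
        have h2 : ((‖c n‖ : ℝ) : ℂ) ^ 2 = c n * (starRingEnd ℂ) (c n) := by
          rw [Complex.mul_conj, Complex.normSq_eq_norm_sq]
          push_cast
          rfl
        rw [h2, hc]
        simp only
        rw [map_sum, Finset.sum_mul_sum]
        refine Finset.sum_congr rfl fun t _ => Finset.sum_congr rfl fun s _ => ?_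
        rw [map_mul, Complex.conj_conj, conj_nit, sub_eq_add_neg, nit_add]
        ring
      simp only [this, Finset.mul_sum]
      rw [Finset.sum_comm]
      refine Finset.sum_congr rfl fun t _ => ?_
      rw [Finset.sum_comm]
      refine Finset.sum_congr rfl fun s _ => Finset.sum_congr rfl fun n _ => ?_
      ring
    have hnn : 0 ≤ ∑ n ∈ N, w n * ‖c n‖ ^ 2 :=
      Finset.sum_nonneg fun n hn => mul_nonneg (hw n hn) (by positivity)
    have h3 : ∑ n ∈ N, w n * ‖c n‖ ^ 2 = ‖((∑ n ∈ N, w n * ‖c n‖ ^ 2 : ℝ) : ℂ)‖ := by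
      rw [Complex.norm_real, Real.norm_of_nonneg hnn]
    rw [h3, h1]
    set K : ℝ → ℝ → ℝ := fun t s => ‖∑ n ∈ N, (w n : ℂ) * nit n (t - s)‖ with hK
    have hKsymm : ∀ t s, K t s = K s t := by
      intro t s
      rw [hK]
      simp only
      rw [← Complex.norm_conj, map_sum]
      congr 1
      refine Finset.sum_congr rfl fun n _ => ?_
      rw [map_mul, conj_nit, Complex.conj_ofReal, neg_sub]
    calc ‖∑ t ∈ S, ∑ s ∈ S, (starRingEnd ℂ) (A t) * A s * ∑ n ∈ N, (w n : ℂ) * nit n (t - s)‖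
        ≤ ∑ t ∈ S, ∑ s ∈ S, ‖A t‖ * ‖A s‖ * K t s := by
          refine (norm_sum_le _ _).trans (Finset.sum_le_sum fun t _ => ?_)
          refine (norm_sum_le _ _).trans (Finset.sum_le_sum fun s _ => ?_)
          rw [norm_mul, norm_mul, Complex.norm_conj]
      _ ≤ ∑ t ∈ S, ∑ s ∈ S, (‖A t‖ ^ 2 * K t s / 2 + ‖A s‖ ^ 2 * K s t / 2) := by
          refine Finset.sum_le_sum fun t _ => Finset.sum_le_sum fun s _ => ?_
          rw [hKsymm s t]
          have : 0 ≤ K t s := norm_nonneg _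
          nlinarith [sq_nonneg (‖A t‖ - ‖A s‖), mul_nonneg this (sq_nonneg (‖A t‖ - ‖A s‖))]
      _ = ∑ t ∈ S, ‖A t‖ ^ 2 * ∑ s ∈ S, K t s := by
          simp only [Finset.sum_add_distrib]
          rw [Finset.sum_comm (f := fun t s => ‖A s‖ ^ 2 * K s t / 2), ← Finset.sum_add_distrib]
          refine Finset.sum_congr rfl fun t _ => ?_
          rw [← Finset.sum_add_distrib, Finset.mul_sum]
          refine Finset.sum_congr rfl fun s _ => ?_
          ring
      _ ≤ ∑ t ∈ S, ‖A t‖ ^ 2 * M := by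
          refine Finset.sum_le_sum fun t ht => ?_
          exact mul_le_mul_of_nonneg_left (hM t ht) (by positivity)
      _ = Q * M := by rw [hQ, Finset.sum_mul]
  have e4 : Q ^ 2 ≤ D * (Q * M) := by
    calc Q ^ 2 ≤ (∑ n ∈ N, (‖a n‖ / Real.sqrt (w n)) * (Real.sqrt (w n) * ‖c n‖)) ^ 2 :=
          pow_le_pow_left₀ hQ0 e2 2
      _ ≤ (∑ n ∈ N, (‖a n‖ / Real.sqrt (w n)) ^ 2) * ∑ n ∈ N, (Real.sqrt (w n) * ‖c n‖) ^ 2 :=
          Finset.sum_mul_sq_le_sq_mul_sq _ _ _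
      _ = (∑ n ∈ N, ‖a n‖ ^ 2 / w n) * ∑ n ∈ N, w n * ‖c n‖ ^ 2 := by
          congr 1
          · refine Finset.sum_congr rfl fun n hn => ?_
            rw [div_pow, Real.sq_sqrt (hw n hn)]
          · refine Finset.sum_congr rfl fun n hn => ?_
            rw [mul_pow, Real.sq_sqrt (hw n hn)]
      _ ≤ D * (Q * M) := by
          refine mul_le_mul hD e3 ?_ hD0
          exact Finset.sum_nonneg fun n hn => mul_nonneg (hw n hn) (by positivity)
  rcases hQ0.lt_or_eq with h | h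
  · have : Q * Q ≤ (D * M) * Q := by nlinarith
    exact le_of_mul_le_mul_right this h
  · rw [← h]
    exact mul_nonneg hD0 hM0

/-- sums over 1-spaced points -/
theorem spaced_sum : ∃ C : ℝ, 0 < C ∧ ∀ (S : Finset ℝ) (t : ℝ),
    (∀ s ∈ S, ∀ s' ∈ S, s ≠ s' → 1 ≤ |s - s'|) → ∑ s ∈ S, 1 / (1 + (t - s) ^ 2) ≤ C := by
  have hs : Summable (fun k : ℤ => 1 / (1 + (k : ℝ) ^ 2)) := by
    have h1 : Summable (fun k : ℤ => 1 / (k : ℝ) ^ 2) := Real.summable_one_div_int_pow.2 (by norm_num)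
    have h2 : Summable (fun k : ℤ => 1 / (k : ℝ) ^ 2 + if k = 0 then 1 else 0) := by
      refine h1.add ?_
      exact (hasSum_ite_eq (0 : ℤ) (1 : ℝ)).summable
    refine Summable.of_nonneg_of_le (fun k => by positivity) (fun k => ?_) h2
    by_cases h : k = 0
    · simp [h]
    · rw [if_neg h, add_zero]
      have : (0 : ℝ) < (k : ℝ) ^ 2 := by positivity
      exact one_div_le_one_div_of_le this (by linarith)
  refine ⟨3 * ∑' k : ℤ, 1 / (1 + (k : ℝ) ^ 2) + 1, ?_, fun S t hS => ?_⟩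
  · have : 0 ≤ ∑' k : ℤ, 1 / (1 + (k : ℝ) ^ 2) := tsum_nonneg fun k => by positivity
    linarith
  have hinj : Set.InjOn (fun s : ℝ => ⌊t - s⌋) S := by
    intro s hs' s' hs'' hss
    by_contra hne
    have h1 := hS s hs' s' hs'' hne
    simp only at hss
    have h2 := Int.floor_le (t - s)
    have h3 := Int.lt_floor_add_one (t - s)
    have h4 := Int.floor_le (t - s')
    have h5 := Int.lt_floor_add_one (t - s')
    rw [hss] at h2 h3
    rw [le_abs] at h1
    rcases h1 with h1 | h1 <;> linarith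
  have key : ∀ x : ℝ, 1 / (1 + x ^ 2) ≤ 3 * (1 / (1 + ((⌊x⌋ : ℤ) : ℝ) ^ 2)) := by
    intro x
    set k : ℝ := ((⌊x⌋ : ℤ) : ℝ) with hk
    have h1 : k ≤ x := Int.floor_le x
    have h2 : x < k + 1 := Int.lt_floor_add_one x
    rw [mul_one_div, div_le_div_iff₀ (by positivity) (by positivity)]
    rcases le_or_gt 0 k with h0 | h0
    · nlinarith
    · have h3 : k ≤ -1 := by
        rw [hk] at h0 ⊢
        have : ⌊x⌋ < 0 := by exact_mod_cast h0
        have : ⌊x⌋ ≤ -1 := by omega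
        exact_mod_cast this
      have h4 : (k + 1) ^ 2 ≤ x ^ 2 := by nlinarith
      nlinarith [sq_nonneg (2 * k + 3)]
  calc ∑ s ∈ S, 1 / (1 + (t - s) ^ 2)
      ≤ ∑ s ∈ S, 3 * (1 / (1 + ((⌊t - s⌋ : ℤ) : ℝ) ^ 2)) := Finset.sum_le_sum fun s _ => key _
    _ = ∑ k ∈ S.image (fun s : ℝ => ⌊t - s⌋), 3 * (1 / (1 + (k : ℝ) ^ 2)) := by
        rw [Finset.sum_image hinj]
    _ = 3 * ∑ k ∈ S.image (fun s : ℝ => ⌊t - s⌋), 1 / (1 + (k : ℝ) ^ 2) := by rw [Finset.mul_sum]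
    _ ≤ 3 * ∑' k : ℤ, 1 / (1 + (k : ℝ) ^ 2) := by
        refine mul_le_mul_of_nonneg_left ?_ (by norm_num)
        exact hs.sum_le_tsum _ fun k _ => by positivity
    _ ≤ _ := by linarith

end Pool.Agent.H37.MR
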