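import Mathlib
import Pool.Agent.H37.MR.Dual

/-!
The kernel of the tent weight: sums over multiples of `D` of `(1/n) tent((log n - L)/h) n^{-iτ}`.
-/

set_option autoImplicit false

open Finset MeasureTheory

namespace Pool.Agent.H37.MR

open Pool.Agent.H24.MR

/-- `e^{-iτu}` -/
noncomputable def eu (τ u : ℝ) : ℂ := Complex.exp (-((τ * u : ℝ) : ℂ) * Complex.I)

theorem norm_eu (τ u : ℝ) : ‖eu τ u‖ = 1 := by
  unfold eu
  rw [show -((τ * u : ℝ) : ℂ) * Complex.I = ((-(τ * u) : ℝ) : ℂ) * Complex.I by push_cast; ring]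
  exact Complex.norm_exp_ofReal_mul_I _

theorem eu_add (τ u v : ℝ) : eu τ (u + v) = eu τ u * eu τ v := by
  unfold eu
  rw [← Complex.exp_add]
  congr 1
  push_cast
  ring

theorem nit_eq_eu (n : ℕ) (τ : ℝ) : nit n τ = eu τ (Real.log n) := rfl

theorem continuous_eu (τ : ℝ) : Continuous (eu τ) := by
  unfold eu
  fun_prop

/-- block error -/
noncomputable def blk (τ h y : ℝ) : ℂ :=
  ∑ m ∈ Ioc ⌊y⌋₊ ⌊y * Real.exp h⌋₊, (1 / (m : ℂ)) * nit m τ
    - ∫ w in (0 : ℝ)..h, eu τ (Real.log y + w)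

/-- main term of the kernel -/
noncomputable def mainH (h L τ : ℝ) : ℂ :=
  (1 / (h : ℂ)) * eu τ L * (∫ v in (0 : ℝ)..h, eu τ (-v)) * ∫ w in (0 : ℝ)..h, eu τ w

theorem tent_int (h u : ℝ) (hh : 0 < h) :
    ∫ v in (0 : ℝ)..h, Set.indicator (Set.Ioc (-u) (h - u)) (fun _ => (1 : ℝ)) v
      = h * tent (u / h) := by
  rw [intervalIntegral.integral_of_le hh.le, setIntegral_indicator measurableSet_Ioc,
    Set.Ioc_inter_Ioc]
  simp only [integral_const, smul_eq_mul, mul_one, Measure.real, Measure.restrict_apply,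
    MeasurableSet.univ, Set.univ_inter, Real.volume_Ioc]
  rw [ENNReal.toReal_ofReal']
  unfold tent
  rw [mul_max_of_nonneg _ _ hh.le, mul_zero, mul_sub, mul_one, abs_div, abs_of_pos hh,
    mul_div_cancel₀ _ hh.ne', max_comm]
  congr 1
  rcases le_total 0 u with h0 | h0
  · rw [abs_of_nonneg h0, min_eq_right (by linarith), max_eq_left (by linarith)]
    ring
  · rw [abs_of_nonpos h0, min_eq_left (by linarith), max_eq_right (by linarith)]

theorem indic_int (h u : ℝ) (hh : 0 < h) :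
    IntervalIntegrable (fun v => ((Set.indicator (Set.Ioc (-u) (h - u)) (fun _ => (1 : ℝ)) v : ℝ) : ℂ))
      volume 0 h := by
  rw [intervalIntegrable_iff_integrableOn_Ioc_of_le hh.le]
  have : IntegrableOn (fun v => Set.indicator (Set.Ioc (-u) (h - u)) (fun _ => (1 : ℝ)) v)
      (Set.Ioc 0 h) volume := by
    refine IntegrableOn.indicator ?_ measurableSet_Ioc
    exact integrableOn_const (by simp)
  exact this.ofReal

theorem kernel (h L τ E : ℝ) (hh : 0 < h) (D M : ℕ) (hD : 0 < D)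
    (hM : Real.exp (L + h) ≤ M)
    (hblk : ∀ v, 0 ≤ v → v ≤ h → ‖blk τ h (Real.exp (L - v) / D)‖ ≤ E) :
    ‖∑ n ∈ (Icc 1 M).filter (fun n => D ∣ n),
        ((1 / n * tent ((Real.log n - L) / h) : ℝ) : ℂ) * nit n τ - (1 / (D : ℂ)) * mainH h L τ‖
      ≤ E / D := by
  have hDr : (0 : ℝ) < D := by exact_mod_cast hD
  have hDc : (D : ℂ) ≠ 0 := by exact_mod_cast hD.ne'
  have hhc : (h : ℂ) ≠ 0 := by exact_mod_cast hh.ne'
  set L' : ℝ := L - Real.log D with hL'
  -- reindex
  have e1 : ∑ n ∈ (Icc 1 M).filter (fun n => D ∣ n),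
        ((1 / n * tent ((Real.log n - L) / h) : ℝ) : ℂ) * nit n τ
      = ∑ m ∈ Icc 1 (M / D), (1 / (D : ℂ)) * nit D τ * ((1 / (m : ℂ)) * nit m τ *
          ((tent ((Real.log m - L') / h) : ℝ) : ℂ)) := by
    symm
    refine Finset.sum_nbij (fun m => D * m) ?_ ?_ ?_ ?_
    · intro m hm
      rw [mem_Icc] at hm
      rw [mem_filter, mem_Icc]
      refine ⟨⟨Nat.mul_pos hD hm.1, ?_⟩, Dvd.intro _ rfl⟩
      rw [mul_comm]
      exact (Nat.le_div_iff_mul_le hD).1 hm.2
    · intro m _ m' _ hmm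
      exact Nat.eq_of_mul_eq_mul_left hD hmm
    · intro n hn
      rw [mem_coe, mem_filter, mem_Icc] at hn
      obtain ⟨⟨h1, h2⟩, m, rfl⟩ := hn
      refine ⟨m, ?_, rfl⟩
      rw [mem_coe, mem_Icc]
      constructor
      · rcases Nat.eq_zero_or_pos m with h0 | h0
        · simp [h0] at h1
        · exact h0
      · rw [Nat.le_div_iff_mul_le hD, mul_comm]
        exact h2
    · intro m hm
      rw [mem_Icc] at hm
      have hm0 : m ≠ 0 := by omega
      have hmc : (m : ℂ) ≠ 0 := by exact_mod_cast hm0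
      rw [nit_mul _ _ _ hD.ne' hm0]
      have : Real.log ((D * m : ℕ) : ℝ) - L = Real.log m - L' := by
        push_cast
        rw [Real.log_mul hDr.ne' (by exact_mod_cast hm0), hL']
        ring
      rw [this]
      push_cast
      field_simp
  rw [e1, ← Finset.mul_sum]
  -- tent as integral
  have e2 : ∀ m : ℕ, ((tent ((Real.log m - L') / h) : ℝ) : ℂ) = (1 / (h : ℂ)) *
      ∫ v in (0 : ℝ)..h, ((Set.indicator (Set.Ioc (-(Real.log m - L')) (h - (Real.log m - L')))
        (fun _ => (1 : ℝ)) v : ℝ) : ℂ) := by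
    intro m
    rw [intervalIntegral.integral_ofReal, tent_int h _ hh]
    push_cast
    field_simp
  have hpt : ∀ v : ℝ, 0 ≤ v → v ≤ h → ∑ m ∈ Icc 1 (M / D), (1 / (m : ℂ)) * nit m τ *
        ((Set.indicator (Set.Ioc (-(Real.log m - L'))
          (h - (Real.log m - L'))) (fun _ => (1 : ℝ)) v : ℝ) : ℂ) =
      ∑ m ∈ Ioc ⌊Real.exp (L - v) / D⌋₊
        ⌊Real.exp (L - v) / D * Real.exp h⌋₊, (1 / (m : ℂ)) * nit m τ := by
    intro v hv1 hv2
    set y : ℝ := Real.exp (L - v) / D with hy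
    have hy0 : 0 < y := by positivity
    have hylog : Real.log y = L' - v := by
      rw [hy, Real.log_div (Real.exp_pos _).ne' hDr.ne', Real.log_exp, hL']
      ring
    have hset : Ioc ⌊y⌋₊ ⌊y * Real.exp h⌋₊ = (Icc 1 (M / D)).filter (fun m : ℕ =>
        v ∈ Set.Ioc (-(Real.log m - L')) (h - (Real.log m - L'))) := by
      ext m
      rw [mem_Ioc, mem_filter, mem_Icc, Set.mem_Ioc, Nat.floor_lt hy0.le,
        Nat.le_floor_iff (by positivity)]
      constructor
      · rintro ⟨h1, h2⟩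
        have hm0 : (0 : ℝ) < m := hy0.trans h1
        have h3 : Real.log y < Real.log m := Real.log_lt_log hy0 h1
        have h4 : Real.log m ≤ Real.log (y * Real.exp h) := Real.log_le_log hm0 h2
        rw [Real.log_mul hy0.ne' (Real.exp_pos _).ne', Real.log_exp] at h4
        refine ⟨⟨by exact_mod_cast hm0, ?_⟩, by linarith, by linarith⟩
        rw [Nat.le_div_iff_mul_le hD]
        have h5 : (m : ℝ) * D ≤ M := by
          calc (m : ℝ) * D ≤ y * Real.exp h * D := mul_le_mul_of_nonneg_right h2 hDr.le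
            _ = Real.exp (L - v + h) := by
              rw [hy, Real.exp_add]
              field_simp
            _ ≤ Real.exp (L + h) := Real.exp_le_exp.2 (by linarith)
            _ ≤ M := hM
        exact_mod_cast h5
      · rintro ⟨⟨h1, _⟩, h2, h3⟩
        have hm0 : (0 : ℝ) < m := by exact_mod_cast h1
        constructor
        · rw [← Real.log_lt_log_iff hy0 hm0]
          linarith
        · rw [← Real.log_le_log_iff hm0 (by positivity), Real.log_mul hy0.ne' (Real.exp_pos _).ne',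
            Real.log_exp]
          linarith
    rw [hset, Finset.sum_filter]
    refine Finset.sum_congr rfl fun m _ => ?_
    by_cases hv' : v ∈ Set.Ioc (-(Real.log m - L')) (h - (Real.log m - L'))
    · rw [Set.indicator_of_mem hv', if_pos hv']
      simp
    · rw [Set.indicator_of_notMem hv', if_neg hv']
      simp
  have hintm : ∀ m : ℕ, IntervalIntegrable (fun v => (1 / (m : ℂ)) * nit m τ *
        ((Set.indicator (Set.Ioc (-(Real.log m - L'))
          (h - (Real.log m - L'))) (fun _ => (1 : ℝ)) v : ℝ) : ℂ)) volume 0 h :=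
    fun m => (indic_int h _ hh).const_mul _
  have hint1 : IntervalIntegrable (fun v => ∑ m ∈ Ioc ⌊Real.exp (L - v) / D⌋₊
        ⌊Real.exp (L - v) / D * Real.exp h⌋₊, (1 / (m : ℂ)) * nit m τ) volume 0 h := by
    have h1 : IntervalIntegrable (fun v => ∑ m ∈ Icc 1 (M / D), (1 / (m : ℂ)) * nit m τ *
        ((Set.indicator (Set.Ioc (-(Real.log m - L'))
          (h - (Real.log m - L'))) (fun _ => (1 : ℝ)) v : ℝ) : ℂ)) volume 0 h := by
      have := IntervalIntegrable.sum (Icc 1 (M / D)) (fun m _ => hintm m)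
      refine this.congr ?_
      intro v _
      simp
    refine h1.congr ?_
    intro v hv
    rw [Set.uIoc_of_le hh.le, Set.mem_Ioc] at hv
    exact hpt v hv.1.le hv.2
  have e3 : ∑ m ∈ Icc 1 (M / D), (1 / (m : ℂ)) * nit m τ *
          ((tent ((Real.log m - L') / h) : ℝ) : ℂ) =
      (1 / (h : ℂ)) * ∫ v in (0 : ℝ)..h, ∑ m ∈ Ioc ⌊Real.exp (L - v) / D⌋₊
        ⌊Real.exp (L - v) / D * Real.exp h⌋₊, (1 / (m : ℂ)) * nit m τ := by
    simp only [e2]
    have : ∀ m : ℕ, (1 / (m : ℂ)) * nit m τ * ((1 / (h : ℂ)) *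
      ∫ v in (0 : ℝ)..h, ((Set.indicator (Set.Ioc (-(Real.log m - L')) (h - (Real.log m - L')))
        (fun _ => (1 : ℝ)) v : ℝ) : ℂ)) = (1 / (h : ℂ)) * ∫ v in (0 : ℝ)..h,
        (1 / (m : ℂ)) * nit m τ * ((Set.indicator (Set.Ioc (-(Real.log m - L'))
          (h - (Real.log m - L'))) (fun _ => (1 : ℝ)) v : ℝ) : ℂ) := by
      intro m
      rw [intervalIntegral.integral_const_mul]
      ring
    simp only [this]
    rw [← Finset.mul_sum, ← intervalIntegral.integral_finsetSum (fun m _ => hintm m)]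
    congr 1
    refine intervalIntegral.integral_congr fun v hv => ?_
    rw [Set.uIcc_of_le hh.le, Set.mem_Icc] at hv
    exact hpt v hv.1 hv.2
  rw [e3]
  -- main term
  have hcont : Continuous (fun v : ℝ => ∫ w in (0 : ℝ)..h, eu τ (Real.log (Real.exp (L - v) / D) + w)) := by
    have : ∀ v : ℝ, ∫ w in (0 : ℝ)..h, eu τ (Real.log (Real.exp (L - v) / D) + w) =
        eu τ (L - v - Real.log D) * ∫ w in (0 : ℝ)..h, eu τ w := by
      intro v
      rw [← intervalIntegral.integral_const_mul]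
      refine intervalIntegral.integral_congr fun w _ => ?_
      rw [Real.log_div (Real.exp_pos _).ne' hDr.ne', Real.log_exp, eu_add]
    simp only [this]
    exact ((continuous_eu τ).comp (by fun_prop)).mul continuous_const
  have e4 : (1 / (D : ℂ)) * mainH h L τ = (1 / (D : ℂ)) * nit D τ * ((1 / (h : ℂ)) *
      ∫ v in (0 : ℝ)..h, ∫ w in (0 : ℝ)..h, eu τ (Real.log (Real.exp (L - v) / D) + w)) := by
    have : ∀ v : ℝ, ∫ w in (0 : ℝ)..h, eu τ (Real.log (Real.exp (L - v) / D) + w) =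
        eu τ (L - Real.log D) * (∫ w in (0 : ℝ)..h, eu τ w) * eu τ (-v) := by
      intro v
      rw [mul_right_comm, ← eu_add, ← intervalIntegral.integral_const_mul]
      refine intervalIntegral.integral_congr fun w _ => ?_
      rw [Real.log_div (Real.exp_pos _).ne' hDr.ne', Real.log_exp, eu_add]
      congr 2
      ring
    simp only [this]
    rw [intervalIntegral.integral_const_mul, nit_eq_eu]
    have h2 : eu τ L = eu τ (Real.log D) * eu τ (L - Real.log D) := by
      rw [← eu_add]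
      congr 1
      ring
    unfold mainH
    rw [h2]
    ring
  rw [e4, ← mul_sub, ← mul_sub, norm_mul, norm_mul, norm_mul, norm_nit]
  rw [← intervalIntegral.integral_sub hint1 (hcont.intervalIntegrable _ _)]
  have hb : ‖∫ v in (0 : ℝ)..h, (∑ m ∈ Ioc ⌊Real.exp (L - v) / D⌋₊
        ⌊Real.exp (L - v) / D * Real.exp h⌋₊, (1 / (m : ℂ)) * nit m τ -
        ∫ w in (0 : ℝ)..h, eu τ (Real.log (Real.exp (L - v) / D) + w))‖ ≤ E * |h - 0| := by
    refine intervalIntegral.norm_integral_le_of_norm_le_const fun v hv => ?_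
    rw [Set.uIoc_of_le hh.le, Set.mem_Ioc] at hv
    exact hblk v hv.1.le hv.2
  rw [sub_zero, abs_of_pos hh] at hb
  have h1 : ‖(1 / (D : ℂ))‖ = 1 / D := by simp
  have h2 : ‖(1 / (h : ℂ))‖ = 1 / h := by
    rw [norm_div, norm_one, Complex.norm_real, Real.norm_of_nonneg hh.le]
  rw [h1, h2, mul_one]
  calc 1 / (D : ℝ) * (1 / h * _) ≤ 1 / (D : ℝ) * (1 / h * (E * h)) := by gcongr
    _ = E / D := by field_simp

end Pool.Agent.H37.MR
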