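import Mathlib
import Pool.Agent.H37.MR.Kernel

/-!
Bounds for the main term and for the block errors of the kernel.
-/

set_option autoImplicit false

open Finset MeasureTheory

namespace Pool.Agent.H37.MR

open Pool.Agent.H24.MR

theorem norm_int_eu_le (h τ : ℝ) (hh : 0 ≤ h) : ‖∫ w in (0 : ℝ)..h, eu τ w‖ ≤ h := by
  have := intervalIntegral.norm_integral_le_of_norm_le_const (a := 0) (b := h) (C := 1)
    (f := eu τ) (fun w _ => (norm_eu τ w).le)
  rwa [one_mul, sub_zero, abs_of_nonneg hh] at this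

theorem norm_int_eu_le' (h τ : ℝ) (hτ : τ ≠ 0) : ‖∫ w in (0 : ℝ)..h, eu τ w‖ ≤ 2 / |τ| := by
  have hc : -(τ : ℂ) * Complex.I ≠ 0 := by
    simp [hτ]
  have h1 : ∀ w : ℝ, eu τ w = Complex.exp ((-(τ : ℂ) * Complex.I) * w) := by
    intro w
    unfold eu
    congr 1
    push_cast
    ring
  have h2 : ∫ w in (0 : ℝ)..h, eu τ w =
      (Complex.exp ((-(τ : ℂ) * Complex.I) * h) - Complex.exp ((-(τ : ℂ) * Complex.I) * (0 : ℝ)))
        / (-(τ : ℂ) * Complex.I) := by
    rw [← integral_exp_mul_complex hc]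
    exact intervalIntegral.integral_congr fun w _ => h1 w
  rw [h2, norm_div, ← h1, ← h1]
  have h3 : ‖-(τ : ℂ) * Complex.I‖ = |τ| := by simp
  rw [h3]
  refine div_le_div_of_nonneg_right ?_ (abs_nonneg _)
  refine (norm_sub_le _ _).trans ?_
  rw [norm_eu, norm_eu]
  norm_num

theorem eu_neg (τ u : ℝ) : eu τ (-u) = eu (-τ) u := by
  unfold eu
  congr 1
  push_cast
  ring

theorem norm_mainH_le (h L τ : ℝ) (hh : 0 < h) :
    ‖mainH h L τ‖ ≤ (h ^ 2 + 4) / h * (1 / (1 + τ ^ 2)) := by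
  unfold mainH
  rw [norm_mul, norm_mul, norm_mul, norm_eu, mul_one]
  have h1 : ‖(1 / (h : ℂ))‖ = 1 / h := by
    rw [norm_div, norm_one, Complex.norm_real, Real.norm_of_nonneg hh.le]
  rw [h1]
  simp only [eu_neg]
  set A := ‖∫ v in (0 : ℝ)..h, eu (-τ) v‖ with hA
  set B := ‖∫ v in (0 : ℝ)..h, eu τ v‖ with hB
  have hA0 : 0 ≤ A := norm_nonneg _
  have hB0 : 0 ≤ B := norm_nonneg _
  have hA1 : A ≤ h := norm_int_eu_le h (-τ) hh.le
  have hB1 : B ≤ h := norm_int_eu_le h τ hh.le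
  have key : A * B * (1 + τ ^ 2) ≤ h ^ 2 + 4 := by
    have e1 : A * B ≤ h ^ 2 := by nlinarith
    have e2 : A * B * τ ^ 2 ≤ 4 := by
      by_cases hτ : τ = 0
      · simp [hτ]
      · have hτ' : 0 < |τ| := abs_pos.2 hτ
        have hA2 : A ≤ 2 / |τ| := by
          have := norm_int_eu_le' h (-τ) (neg_ne_zero.2 hτ)
          rwa [abs_neg] at this
        have hB2 : B ≤ 2 / |τ| := norm_int_eu_le' h τ hτ
        calc A * B * τ ^ 2 ≤ (2 / |τ|) * (2 / |τ|) * τ ^ 2 := by gcongr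
          _ = 4 := by
            rw [← sq_abs τ]
            field_simp
            norm_num
    nlinarith
  have hpos : 0 < 1 + τ ^ 2 := by positivity
  rw [div_mul_eq_mul_div, div_mul_div_comm, one_mul] 
  rw [show A / h * B = A * B / h by ring]
  rw [mul_one, div_le_div_iff₀ hh (by positivity)]
  nlinarith

/-- the integrand of the blocks -/
noncomputable def gx (τ x : ℝ) : ℂ := (1 / (x : ℂ)) * eu τ (Real.log x)

theorem gx_nat (τ : ℝ) (m : ℕ) : gx τ m = (1 / (m : ℂ)) * nit m τ := by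
  unfold gx
  rw [nit_eq_eu]
  push_cast
  rfl

theorem gx_eq_cpow (τ x : ℝ) (hx : 0 < x) : gx τ x = ((x : ℝ) : ℂ) ^ (-(1 : ℂ) - τ * Complex.I) := by
  have hxc : (x : ℂ) ≠ 0 := by exact_mod_cast hx.ne'
  rw [Complex.cpow_def_of_ne_zero hxc, ← Complex.ofReal_log hx.le]
  unfold gx eu
  have : (1 / (x : ℂ)) = Complex.exp (-(Real.log x : ℂ)) := by
    rw [Complex.exp_neg, ← Complex.ofReal_exp, Real.exp_log hx, one_div]
  rw [this, ← Complex.exp_add]
  congr 1
  push_cast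
  ring

theorem norm_gx (τ x : ℝ) (hx : 0 < x) : ‖gx τ x‖ = 1 / x := by
  unfold gx
  rw [norm_mul, norm_eu, mul_one, norm_div, norm_one, Complex.norm_real, Real.norm_of_nonneg hx.le]

theorem continuousOn_gx (τ : ℝ) : ContinuousOn (gx τ) (Set.Ioi 0) := by
  unfold gx
  refine ContinuousOn.mul ?_ ?_
  · refine ContinuousOn.div continuousOn_const Complex.continuous_ofReal.continuousOn ?_
    intro x hx
    exact_mod_cast (ne_of_gt hx)
  · refine (continuous_eu τ).comp_continuousOn ?_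
    exact Real.continuousOn_log.mono fun x hx => ne_of_gt hx

theorem intervalIntegrable_gx (τ a b : ℝ) (ha : 0 < a) (hb : 0 < b) :
    IntervalIntegrable (gx τ) volume a b := by
  refine ((continuousOn_gx τ).mono ?_).intervalIntegrable
  intro x hx
  rcases Set.mem_uIcc.1 hx with h | h
  · exact lt_of_lt_of_le ha h.1
  · exact lt_of_lt_of_le hb h.1

theorem chain (τ : ℝ) (φ : ℕ → ℝ) (a₀ : ℕ) (ha₀ : 1 ≤ a₀)
    (hφ : ∀ a b, a₀ ≤ a → a ≤ b → φ b ≤ φ a) (hφ0 : ∀ a, a₀ ≤ a → 0 ≤ φ a)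
    (hb : ∀ a b : ℕ, a₀ ≤ a → a ≤ b → b ≤ 4 * a →
      ‖∑ n ∈ Ioc a b, gx τ n - ∫ x in (a : ℝ)..b, gx τ x‖ ≤ φ a) :
    ∀ (J a b : ℕ), a₀ ≤ a → a ≤ b → b ≤ 4 ^ J * a →
      ‖∑ n ∈ Ioc a b, gx τ n - ∫ x in (a : ℝ)..b, gx τ x‖ ≤ J * φ a := by
  intro J
  induction J with
  | zero =>
    intro a b h1 h2 h3
    have : a = b := by omega
    subst this
    simp
  | succ J ih =>
    intro a b h1 h2 h3
    have hφa := hφ0 a h1
    by_cases h4 : b ≤ 4 * a
    · refine (hb a b h1 h2 h4).trans ?_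
      push_cast
      nlinarith [Nat.cast_nonneg (α := ℝ) J, mul_nonneg (Nat.cast_nonneg (α := ℝ) J) hφa]
    · push Not at h4
      have e1 : ∑ n ∈ Ioc a b, gx τ n = ∑ n ∈ Ioc a (4 * a), gx τ n + ∑ n ∈ Ioc (4 * a) b, gx τ n := by
        rw [← Finset.sum_union]
        · congr 1
          ext n
          simp only [mem_union, mem_Ioc]
          omega
        · rw [Finset.disjoint_left]
          intro n hn hn'
          rw [mem_Ioc] at hn hn'
          omega
      have e2 : ∫ x in (a : ℝ)..b, gx τ x =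
          (∫ x in (a : ℝ)..((4 * a : ℕ) : ℝ), gx τ x) + ∫ x in ((4 * a : ℕ) : ℝ)..b, gx τ x := by
        have h5 : (0 : ℝ) < a := by exact_mod_cast (by omega : 0 < a)
        have h6 : (0 : ℝ) < ((4 * a : ℕ) : ℝ) := by exact_mod_cast (by omega : 0 < 4 * a)
        have h7 : (0 : ℝ) < b := by exact_mod_cast (by omega : 0 < b)
        exact (intervalIntegral.integral_add_adjacent_intervals
          (intervalIntegrable_gx τ _ _ h5 h6) (intervalIntegrable_gx τ _ _ h6 h7)).symm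
      rw [e1, e2, add_sub_add_comm]
      refine (norm_add_le _ _).trans ?_
      have h8 := hb a (4 * a) h1 (by omega) le_rfl
      have h9 := ih (4 * a) b (by omega) h4.le (by
        calc b ≤ 4 ^ (J + 1) * a := h3
          _ = 4 ^ J * (4 * a) := by ring)
      have h10 := hφ a (4 * a) h1 (by omega)
      have h11 : ((J + 1 : ℕ) : ℝ) * φ a = J * φ a + φ a := by push_cast; ring
      have h12 := mul_le_mul_of_nonneg_left h10 (Nat.cast_nonneg (α := ℝ) J)
      rw [h11]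
      linarith

theorem int_change (τ h y : ℝ) (hy : 0 < y) :
    ∫ w in (0 : ℝ)..h, eu τ (Real.log y + w) = ∫ x in y..(y * Real.exp h), gx τ x := by
  have := intervalIntegral.integral_deriv_smul_comp'' (a := 0) (b := h)
    (f := fun w => y * Real.exp w) (f' := fun w => y * Real.exp w) (g := gx τ)
    (by fun_prop) (fun x _ => by
      have := (Real.hasDerivAt_exp x).const_mul y
      exact this.hasDerivWithinAt) (by fun_prop) (by
      refine (continuousOn_gx τ).mono ?_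
      rintro _ ⟨w, _, rfl⟩
      exact mul_pos hy (Real.exp_pos _))
  simp only [Real.exp_zero, mul_one] at this
  rw [← this]
  refine intervalIntegral.integral_congr fun w _ => ?_
  simp only [Function.comp]
  unfold gx
  have hpos : 0 < y * Real.exp w := mul_pos hy (Real.exp_pos _)
  rw [Real.log_mul hy.ne' (Real.exp_pos _).ne', Real.log_exp, Complex.real_smul, ← mul_assoc,
    mul_one_div, div_self, one_mul]
  exact_mod_cast hpos.ne'

theorem blk_bound (τ h y : ℝ) (hh : 0 < h) (hy : 1 ≤ y) (φ : ℕ → ℝ) (J : ℕ)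
    (hJ : 2 * Real.exp h ≤ 4 ^ J)
    (hφ : ∀ a b, ⌊y⌋₊ ≤ a → a ≤ b → φ b ≤ φ a) (hφ0 : ∀ a, ⌊y⌋₊ ≤ a → 0 ≤ φ a)
    (hb : ∀ a b : ℕ, ⌊y⌋₊ ≤ a → a ≤ b → b ≤ 4 * a →
      ‖∑ n ∈ Ioc a b, gx τ n - ∫ x in (a : ℝ)..b, gx τ x‖ ≤ φ a) :
    ‖blk τ h y‖ ≤ J * φ ⌊y⌋₊ + 2 / (⌊y⌋₊ : ℝ) := by
  have hy0 : 0 < y := by linarith
  set a := ⌊y⌋₊ with ha
  set b := ⌊y * Real.exp h⌋₊ with hb'
  have ha1 : 1 ≤ a := Nat.le_floor (by simpa using hy)
  have hexp : 1 ≤ Real.exp h := Real.one_le_exp hh.le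
  have hyy : y ≤ y * Real.exp h := by nlinarith
  have hab : a ≤ b := Nat.floor_le_floor hyy
  have har : (1 : ℝ) ≤ a := by exact_mod_cast ha1
  have ha2 : (a : ℝ) ≤ y := Nat.floor_le hy0.le
  have ha3 : y < a + 1 := Nat.lt_floor_add_one y
  have hb2 : (b : ℝ) ≤ y * Real.exp h := Nat.floor_le (by positivity)
  have hb3 : y * Real.exp h < b + 1 := Nat.lt_floor_add_one _
  have hbr : (a : ℝ) ≤ b := by exact_mod_cast hab
  have hbJ : b ≤ 4 ^ J * a := by
    have : (b : ℝ) ≤ 4 ^ J * a := by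
      calc (b : ℝ) ≤ y * Real.exp h := hb2
        _ ≤ (a + 1) * Real.exp h := by nlinarith
        _ ≤ (2 * a) * Real.exp h := by nlinarith
        _ = (2 * Real.exp h) * a := by ring
        _ ≤ 4 ^ J * a := by nlinarith
    exact_mod_cast this
  have h1 := chain τ φ a ha1 hφ hφ0 hb J a b le_rfl hab hbJ
  unfold blk
  rw [int_change τ h y hy0]
  have e1 : ∑ m ∈ Ioc a b, (1 / (m : ℂ)) * nit m τ = ∑ m ∈ Ioc a b, gx τ m :=
    Finset.sum_congr rfl fun m _ => (gx_nat τ m).symm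
  rw [e1]
  have hyb : (0 : ℝ) < y * Real.exp h := by positivity
  have e2 : (∫ x in (a : ℝ)..b, gx τ x) + ∫ x in (b : ℝ)..(y * Real.exp h), gx τ x =
      (∫ x in (a : ℝ)..y, gx τ x) + ∫ x in y..(y * Real.exp h), gx τ x := by
    rw [intervalIntegral.integral_add_adjacent_intervals
      (intervalIntegrable_gx τ _ _ (by linarith) (by linarith))
      (intervalIntegrable_gx τ _ _ (by linarith) hyb),
      intervalIntegral.integral_add_adjacent_intervals
      (intervalIntegrable_gx τ _ _ (by linarith) (by linarith))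
      (intervalIntegrable_gx τ _ _ (by linarith) hyb)]
  have e3 : ‖∫ x in (a : ℝ)..y, gx τ x‖ ≤ 1 / a := by
    have := intervalIntegral.norm_integral_le_of_norm_le_const (a := (a : ℝ)) (b := y) (C := 1 / a)
      (f := gx τ) (fun x hx => by
        rw [Set.uIoc_of_le ha2, Set.mem_Ioc] at hx
        rw [norm_gx τ x (by linarith)]
        exact one_div_le_one_div_of_le (by linarith) hx.1.le)
    refine this.trans ?_
    rw [abs_of_nonneg (by linarith)]
    have : (0 : ℝ) ≤ 1 / a := by positivity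
    nlinarith
  have e4 : ‖∫ x in (b : ℝ)..(y * Real.exp h), gx τ x‖ ≤ 1 / a := by
    have := intervalIntegral.norm_integral_le_of_norm_le_const (a := (b : ℝ))
      (b := y * Real.exp h) (C := 1 / a)
      (f := gx τ) (fun x hx => by
        rw [Set.uIoc_of_le hb2, Set.mem_Ioc] at hx
        rw [norm_gx τ x (by linarith)]
        exact one_div_le_one_div_of_le (by linarith) (by linarith))
    refine this.trans ?_
    rw [abs_of_nonneg (by linarith)]
    have : (0 : ℝ) ≤ 1 / a := by positivity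
    nlinarith
  have e5 : ∑ m ∈ Ioc a b, gx τ m - ∫ x in y..(y * Real.exp h), gx τ x =
      (∑ m ∈ Ioc a b, gx τ m - ∫ x in (a : ℝ)..b, gx τ x) + (∫ x in (a : ℝ)..y, gx τ x)
        - ∫ x in (b : ℝ)..(y * Real.exp h), gx τ x := by
    have : ∫ x in y..(y * Real.exp h), gx τ x = (∫ x in (a : ℝ)..b, gx τ x)
      + (∫ x in (b : ℝ)..(y * Real.exp h), gx τ x) - ∫ x in (a : ℝ)..y, gx τ x := by
      rw [e2]
      ring
    rw [this]
    ring
  rw [e5]
  calc _ ≤ ‖∑ m ∈ Ioc a b, gx τ m - ∫ x in (a : ℝ)..b, gx τ x‖ + ‖∫ x in (a : ℝ)..y, gx τ x‖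
        + ‖∫ x in (b : ℝ)..(y * Real.exp h), gx τ x‖ :=
        (norm_sub_le _ _).trans (by gcongr; exact norm_add_le _ _)
    _ ≤ J * φ a + 1 / a + 1 / a := by gcongr
    _ = _ := by ring

end Pool.Agent.H37.MR
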