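import Mathlib

/-!
Selberg weights.
-/

set_option autoImplicit false

open Finset

namespace Pool.Agent.H37.MR

/-- `G(R) = ∑_{l ≤ R} μ²(l)/φ(l)` -/
noncomputable def GS (R : ℕ) : ℝ :=
  ∑ l ∈ Icc 1 R, (ArithmeticFunction.moebius l : ℝ) ^ 2 / Nat.totient l

/-- Selberg weights -/
noncomputable def lamS (R d : ℕ) : ℝ :=
  d / GS R * ∑ m ∈ (Icc 1 R).filter (fun m => d ∣ m),
    (ArithmeticFunction.moebius (m / d) : ℝ) * ArithmeticFunction.moebius m / Nat.totient m

theorem GS_ge_one (R : ℕ) (hR : 1 ≤ R) : 1 ≤ GS R := by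
  unfold GS
  have h1 : (1 : ℕ) ∈ Icc 1 R := by simp [hR]
  have := Finset.single_le_sum (f := fun l : ℕ =>
    (ArithmeticFunction.moebius l : ℝ) ^ 2 / Nat.totient l) (fun l _ => by positivity) h1
  simpa using this

theorem lamS_one (R : ℕ) (hR : 1 ≤ R) : lamS R 1 = 1 := by
  unfold lamS
  have hG := GS_ge_one R hR
  have : ∑ m ∈ (Icc 1 R).filter (fun m => 1 ∣ m),
    (ArithmeticFunction.moebius (m / 1) : ℝ) * ArithmeticFunction.moebius m / Nat.totient m = GS R := by
    unfold GS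
    rw [Finset.filter_true_of_mem (fun m _ => one_dvd m)]
    refine Finset.sum_congr rfl fun m _ => ?_
    rw [Nat.div_one]
    ring
  rw [this]
  have : GS R ≠ 0 := by linarith
  field_simp
  simp

theorem abs_moebius_le (n : ℕ) : |(ArithmeticFunction.moebius n : ℝ)| ≤ 1 := by
  have := ArithmeticFunction.abs_moebius_le_one (n := n)
  exact_mod_cast this

theorem abs_lamS_le (R d : ℕ) (hR : 1 ≤ R) (hd : d ≤ R) : |lamS R d| ≤ (R : ℝ) ^ 2 := by
  unfold lamS
  have hG := GS_ge_one R hR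
  rw [abs_mul, abs_div, abs_of_nonneg (by linarith : 0 ≤ GS R), Nat.abs_cast]
  have h1 : (d : ℝ) / GS R ≤ R := by
    rw [div_le_iff₀ (by linarith)]
    have : (d : ℝ) ≤ R := by exact_mod_cast hd
    nlinarith [Nat.cast_nonneg (α := ℝ) R]
  have h2 : |∑ m ∈ (Icc 1 R).filter (fun m => d ∣ m),
      (ArithmeticFunction.moebius (m / d) : ℝ) * ArithmeticFunction.moebius m / Nat.totient m| ≤ R := by
    calc _ ≤ ∑ m ∈ (Icc 1 R).filter (fun m => d ∣ m), (1 : ℝ) := by
          refine (Finset.abs_sum_le_sum_abs _ _).trans (Finset.sum_le_sum fun m hm => ?_)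
          rw [mem_filter, mem_Icc] at hm
          rw [abs_div, abs_mul, Nat.abs_cast]
          have h3 : (1 : ℝ) ≤ Nat.totient m := by
            exact_mod_cast Nat.totient_pos.2 hm.1.1
          rw [div_le_one (by linarith)]
          have h4 := abs_moebius_le (m / d)
          have h5 := abs_moebius_le m
          nlinarith [abs_nonneg ((ArithmeticFunction.moebius (m / d) : ℝ)),
            abs_nonneg ((ArithmeticFunction.moebius m : ℝ))]
      _ ≤ ∑ m ∈ Icc 1 R, (1 : ℝ) :=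
          Finset.sum_le_sum_of_subset_of_nonneg (Finset.filter_subset _ _) (fun _ _ _ => zero_le_one)
      _ = R := by simp
  calc _ ≤ (R : ℝ) * R := by
        refine mul_le_mul h1 h2 (abs_nonneg _) (by positivity)
    _ = _ := by ring

theorem sum_moebius_div (m : ℕ) (hm : 0 < m) :
    ∑ k ∈ m.divisors, (ArithmeticFunction.moebius (m / k) : ℝ) = if m = 1 then 1 else 0 := by
  rw [Nat.sum_div_divisors m (fun k => (ArithmeticFunction.moebius k : ℝ))]
  have h1 : (ArithmeticFunction.moebius * (ArithmeticFunction.zeta : ArithmeticFunction ℤ)) m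
      = (1 : ArithmeticFunction ℤ) m := by
    rw [ArithmeticFunction.moebius_mul_coe_zeta]
  rw [ArithmeticFunction.coe_mul_zeta_apply, ArithmeticFunction.one_apply] at h1
  have h2 : ((∑ i ∈ m.divisors, ArithmeticFunction.moebius i : ℤ) : ℝ) =
      ((if m = 1 then 1 else 0 : ℤ) : ℝ) := by rw [h1]
  push_cast at h2
  exact h2

theorem inner_sum (R l m : ℕ) (hl : 0 < l) (hm : m ∈ Icc 1 R) :
    ∑ d ∈ (Icc 1 R).filter (fun d => l ∣ d), (if d ∣ m then
      (ArithmeticFunction.moebius (m / d) : ℝ) else 0) = if m = l then 1 else 0 := by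
  rw [mem_Icc] at hm
  by_cases hlm : l ∣ m
  · obtain ⟨k, rfl⟩ := hlm
    have hk : 0 < k := Nat.pos_of_ne_zero (by rintro rfl; simp at hm)
    rw [← Finset.sum_filter]
    have : ∑ d ∈ ((Icc 1 R).filter (fun d => l ∣ d)).filter (fun d => d ∣ l * k),
        (ArithmeticFunction.moebius (l * k / d) : ℝ) =
        ∑ j ∈ k.divisors, (ArithmeticFunction.moebius (k / j) : ℝ) := by
      symm
      refine Finset.sum_nbij (fun j => l * j) ?_ ?_ ?_ ?_
      · intro j hj
        rw [Nat.mem_divisors] at hj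
        rw [mem_filter, mem_filter, mem_Icc]
        have hj0 : 0 < j := Nat.pos_of_dvd_of_pos hj.1 hk
        refine ⟨⟨⟨Nat.mul_pos hl hj0, ?_⟩, Dvd.intro _ rfl⟩, Nat.mul_dvd_mul_left l hj.1⟩
        exact (Nat.mul_le_mul_left l (Nat.le_of_dvd hk hj.1)).trans hm.2
      · intro a _ b _ hab
        exact Nat.eq_of_mul_eq_mul_left hl hab
      · intro d hd
        rw [mem_coe, mem_filter, mem_filter, mem_Icc] at hd
        obtain ⟨⟨_, j, rfl⟩, h2⟩ := hd
        refine ⟨j, ?_, rfl⟩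
        rw [mem_coe, Nat.mem_divisors]
        exact ⟨Nat.dvd_of_mul_dvd_mul_left hl h2, hk.ne'⟩
      · intro j _
        rw [Nat.mul_div_mul_left _ _ hl]
    rw [this, sum_moebius_div k hk]
    by_cases hk1 : k = 1
    · simp [hk1]
    · rw [if_neg hk1, if_neg]
      intro h
      exact hk1 (Nat.eq_of_mul_eq_mul_left hl (by omega))
  · rw [if_neg (by rintro rfl; exact hlm dvd_rfl)]
    refine Finset.sum_eq_zero fun d hd => ?_
    rw [mem_filter] at hd
    rw [if_neg]
    intro h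
    exact hlm (hd.2.trans h)

/-- `∑_{l ∣ d} λ_d/d = μ(l)/(φ(l)G)` -/
theorem y_eq (R l : ℕ) (hR : 1 ≤ R) (hl : l ∈ Icc 1 R) :
    ∑ d ∈ (Icc 1 R).filter (fun d => l ∣ d), lamS R d / d =
      ArithmeticFunction.moebius l / (Nat.totient l * GS R) := by
  have hl' := mem_Icc.1 hl
  have hG := GS_ge_one R hR
  have h1 : ∀ d ∈ (Icc 1 R).filter (fun d => l ∣ d), lamS R d / d =
      ∑ m ∈ Icc 1 R, (1 / GS R) * (ArithmeticFunction.moebius m / Nat.totient m) *
        (if d ∣ m then (ArithmeticFunction.moebius (m / d) : ℝ) else 0) := by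
    intro d hd
    rw [mem_filter, mem_Icc] at hd
    have hd0 : (d : ℝ) ≠ 0 := by
      have : 0 < d := hd.1.1
      exact_mod_cast this.ne'
    unfold lamS
    rw [Finset.sum_filter, Finset.mul_sum, Finset.sum_div]
    refine Finset.sum_congr rfl fun m _ => ?_
    split_ifs
    · field_simp
    · simp
  rw [Finset.sum_congr rfl h1, Finset.sum_comm]
  simp only [← Finset.mul_sum]
  rw [Finset.sum_congr rfl (fun m hm => by rw [inner_sum R l m hl'.1 hm])]
  simp only [mul_ite, mul_one, mul_zero]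
  rw [Finset.sum_ite_eq' (Icc 1 R) l, if_pos hl]
  field_simp

theorem quad_form (R : ℕ) (hR : 1 ≤ R) :
    ∑ d ∈ Icc 1 R, ∑ e ∈ Icc 1 R, lamS R d * lamS R e / (Nat.lcm d e : ℝ) = 1 / GS R := by
  have hG := GS_ge_one R hR
  have h1 : ∀ d ∈ Icc 1 R, ∀ e ∈ Icc 1 R, lamS R d * lamS R e / (Nat.lcm d e : ℝ) =
      ∑ l ∈ Icc 1 R, (Nat.totient l : ℝ) * (if l ∣ d then lamS R d / d else 0) *
        (if l ∣ e then lamS R e / e else 0) := by
    intro d hd e he
    rw [mem_Icc] at hd he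
    have hd0 : (d : ℝ) ≠ 0 := by
      have : 0 < d := hd.1
      exact_mod_cast this.ne'
    have he0 : (e : ℝ) ≠ 0 := by
      have : 0 < e := he.1
      exact_mod_cast this.ne'
    have hgpos : 0 < Nat.gcd d e := Nat.gcd_pos_of_pos_left _ hd.1
    have h2 : ((Nat.gcd d e : ℕ) : ℝ) = ∑ l ∈ Icc 1 R, if l ∣ d ∧ l ∣ e then (Nat.totient l : ℝ) else 0 := by
      rw [← Finset.sum_filter]
      have h3 : (Icc 1 R).filter (fun l => l ∣ d ∧ l ∣ e) = (Nat.gcd d e).divisors := by
        ext l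
        rw [mem_filter, mem_Icc, Nat.mem_divisors]
        constructor
        · rintro ⟨_, h4, h5⟩
          exact ⟨Nat.dvd_gcd h4 h5, hgpos.ne'⟩
        · rintro ⟨h4, _⟩
          have h5 : l ∣ d := h4.trans (Nat.gcd_dvd_left _ _)
          have h6 : l ∣ e := h4.trans (Nat.gcd_dvd_right _ _)
          exact ⟨⟨Nat.pos_of_dvd_of_pos h5 hd.1, (Nat.le_of_dvd hd.1 h5).trans hd.2⟩, h5, h6⟩
      rw [h3]
      exact_mod_cast (Nat.sum_totient (Nat.gcd d e)).symm
    have h3 : ((Nat.gcd d e : ℕ) : ℝ) * (Nat.lcm d e : ℝ) = d * e := by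
      exact_mod_cast Nat.gcd_mul_lcm d e
    have hl0 : (Nat.lcm d e : ℝ) ≠ 0 := by
      have : 0 < Nat.lcm d e := Nat.lcm_pos hd.1 he.1
      exact_mod_cast this.ne'
    have h4 : lamS R d * lamS R e / (Nat.lcm d e : ℝ) =
        (Nat.gcd d e : ℝ) * (lamS R d / d) * (lamS R e / e) := by
      field_simp
      linear_combination (-(lamS R d * lamS R e)) * h3
    rw [h4, h2, Finset.sum_mul, Finset.sum_mul]
    refine Finset.sum_congr rfl fun l _ => ?_
    by_cases h5 : l ∣ d <;> by_cases h6 : l ∣ e <;> simp [h5, h6]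
  rw [Finset.sum_congr rfl (fun d hd => Finset.sum_congr rfl (fun e he => h1 d hd e he))]
  have h5 : ∑ d ∈ Icc 1 R, ∑ e ∈ Icc 1 R, ∑ l ∈ Icc 1 R,
      (Nat.totient l : ℝ) * (if l ∣ d then lamS R d / d else 0) *
        (if l ∣ e then lamS R e / e else 0) =
      ∑ l ∈ Icc 1 R, (Nat.totient l : ℝ) * (∑ d ∈ (Icc 1 R).filter (fun d => l ∣ d), lamS R d / d) ^ 2 := by
    have : ∀ l, (Nat.totient l : ℝ) * (∑ d ∈ (Icc 1 R).filter (fun d => l ∣ d), lamS R d / d) ^ 2 =
        ∑ d ∈ Icc 1 R, ∑ e ∈ Icc 1 R, (Nat.totient l : ℝ) * (if l ∣ d then lamS R d / d else 0) *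
        (if l ∣ e then lamS R e / e else 0) := by
      intro l
      rw [Finset.sum_filter, sq, Finset.sum_mul_sum, Finset.mul_sum]
      refine Finset.sum_congr rfl fun d _ => ?_
      rw [Finset.mul_sum]
      refine Finset.sum_congr rfl fun e _ => ?_
      ring
    simp only [this]
    rw [Finset.sum_congr rfl (fun d _ => Finset.sum_comm), Finset.sum_comm]
  rw [h5]
  rw [Finset.sum_congr rfl (fun l hl => by rw [y_eq R l hR hl])]
  have h6 : ∀ l ∈ Icc 1 R, (Nat.totient l : ℝ) * ((ArithmeticFunction.moebius l : ℝ) / (Nat.totient l * GS R)) ^ 2 =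
      (1 / GS R ^ 2) * ((ArithmeticFunction.moebius l : ℝ) ^ 2 / Nat.totient l) := by
    intro l hl
    rw [mem_Icc] at hl
    have : (Nat.totient l : ℝ) ≠ 0 := by
      exact_mod_cast (Nat.totient_pos.2 hl.1).ne'
    field_simp
  rw [Finset.sum_congr rfl h6, ← Finset.mul_sum]
  change (1 / GS R ^ 2) * GS R = _
  have : GS R ≠ 0 := by linarith
  field_simp

/-- lower bound `G ≥ (1/2) log (R+1)` -/
theorem GS_ge_log (R : ℕ) : Real.log (R + 1) / 2 ≤ GS R := by
  have h1 : Real.log (R + 1) ≤ ∑ n ∈ Icc 1 R, (1 : ℝ) / n := by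
    have := log_add_one_le_harmonic R
    push_cast at this
    refine this.trans ?_
    rw [harmonic_eq_sum_Icc]
    push_cast
    refine Finset.sum_le_sum fun n _ => ?_
    rw [one_div]
  have h2 : ∑ n ∈ Icc 1 R, (1 : ℝ) / n ≤
      (∑ l ∈ (Icc 1 R).filter Squarefree, (1 : ℝ) / l) * ∑ k ∈ Icc 1 R, (1 : ℝ) / (k : ℝ) ^ 2 := by
    rw [Finset.sum_mul_sum, ← Finset.sum_product']
    have h3 : ∀ n ∈ Icc 1 R, ∃ x ∈ (Icc 1 R).filter Squarefree ×ˢ Icc 1 R, x.2 ^ 2 * x.1 = n := by
      intro n hn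
      rw [mem_Icc] at hn
      obtain ⟨a, b, hab, ha⟩ := Nat.sq_mul_squarefree n
      have hb0 : 0 < b := Nat.pos_of_ne_zero (by rintro rfl; simp at hab; omega)
      have ha0 : 0 < a := Nat.pos_of_ne_zero (by rintro rfl; simp at hab; omega)
      refine ⟨(a, b), ?_, hab⟩
      rw [mem_product, mem_filter, mem_Icc, mem_Icc]
      have h4 : a ≤ n := by
        rw [← hab]
        exact Nat.le_mul_of_pos_left _ (by positivity)
      have h5 : b ≤ n := by
        rw [← hab]
        calc b ≤ b ^ 2 := Nat.le_self_pow (by norm_num) b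
          _ ≤ b ^ 2 * a := Nat.le_mul_of_pos_right _ ha0
      exact ⟨⟨⟨ha0, h4.trans hn.2⟩, ha⟩, hb0, h5.trans hn.2⟩
    choose! x hx1 hx2 using h3
    have hinj : Set.InjOn x (Icc 1 R : Finset ℕ) := by
      intro n hn n' hn' h
      rw [← hx2 n hn, ← hx2 n' hn', h]
    calc ∑ n ∈ Icc 1 R, (1 : ℝ) / n
        = ∑ y ∈ (Icc 1 R).image x, (1 : ℝ) / y.1 * (1 / (y.2 : ℝ) ^ 2) := by
          rw [Finset.sum_image hinj]
          refine Finset.sum_congr rfl fun n hn => ?_
          conv_lhs => rw [← hx2 n hn]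
          push_cast
          rw [div_mul_div_comm, one_mul, mul_comm]
      _ ≤ _ := by
          refine Finset.sum_le_sum_of_subset_of_nonneg ?_ (fun _ _ _ => by positivity)
          intro y hy
          obtain ⟨n, hn, rfl⟩ := Finset.mem_image.1 hy
          exact hx1 n hn
  have h3 : ∑ k ∈ Icc 1 R, (1 : ℝ) / (k : ℝ) ^ 2 ≤ 2 := by
    have : ∀ R : ℕ, ∑ k ∈ Icc 1 (R + 1), (1 : ℝ) / (k : ℝ) ^ 2 ≤ 2 - 1 / (R + 1) := by
      intro R
      induction R with
      | zero => simp; norm_num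
      | succ n ih =>
        rw [Finset.sum_Icc_succ_top (by omega)]
        push_cast
        have h4 : (1 : ℝ) / ((n : ℝ) + 1 + 1) ^ 2 ≤ 1 / (n + 1) - 1 / (n + 1 + 1) := by
          rw [div_sub_div _ _ (by positivity) (by positivity), div_le_div_iff₀ (by positivity) (by positivity)]
          nlinarith [Nat.cast_nonneg (α := ℝ) n]
        linarith
    rcases R with _ | R
    · simp
    · refine (this R).trans ?_
      have : (0 : ℝ) ≤ 1 / (R + 1) := by positivity
      linarith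
  have h4 : ∑ l ∈ (Icc 1 R).filter Squarefree, (1 : ℝ) / l ≤ GS R := by
    unfold GS
    rw [Finset.sum_filter]
    refine Finset.sum_le_sum fun l hl => ?_
    rw [mem_Icc] at hl
    have hφ : (0 : ℝ) < Nat.totient l := by exact_mod_cast Nat.totient_pos.2 hl.1
    split_ifs with h
    · have h5 : (ArithmeticFunction.moebius l : ℝ) ^ 2 = 1 := by
        have := ArithmeticFunction.moebius_sq_eq_one_of_squarefree h
        exact_mod_cast this
      rw [h5]
      refine one_div_le_one_div_of_le hφ ?_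
      exact_mod_cast Nat.totient_le l
    · positivity
  have h5 : 0 ≤ ∑ l ∈ (Icc 1 R).filter Squarefree, (1 : ℝ) / l :=
    Finset.sum_nonneg fun _ _ => by positivity
  nlinarith

end Pool.Agent.H37.MR
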