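import Mathlib
import Pool.Agent.H24.MR.InterfaceMR
import Pool.Agent.H37.MR.Dual
import Pool.Agent.H37.MR.Kernel
import Pool.Agent.H37.MR.Block
import Pool.Agent.H37.MR.Selberg

/-!
[PH]: large values of prime polynomials on very sparse sets.
-/

set_option autoImplicit false

open Finset MeasureTheory

namespace Pool.Agent.H37.MR

open Pool.Agent.H24.MR

/-- sieve majorant -/
noncomputable def nuS (R n : ℕ) : ℝ := (∑ d ∈ (Icc 1 R).filter (fun d => d ∣ n), lamS R d) ^ 2

theorem nuS_nonneg (R n : ℕ) : 0 ≤ nuS R n := sq_nonneg _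

theorem nuS_prime (R p : ℕ) (hR : 1 ≤ R) (hp : p.Prime) (hRp : R < p) : nuS R p = 1 := by
  unfold nuS
  have : (Icc 1 R).filter (fun d => d ∣ p) = {1} := by
    ext d
    rw [mem_filter, mem_Icc, mem_singleton]
    constructor
    · rintro ⟨⟨h1, h2⟩, h3⟩
      rcases (Nat.dvd_prime hp).1 h3 with h | h
      · exact h
      · omega
    · rintro rfl
      exact ⟨⟨le_refl _, hR⟩, one_dvd _⟩
  rw [this, sum_singleton, lamS_one R hR, one_pow]

theorem nuS_eq (R n : ℕ) : nuS R n = ∑ d ∈ Icc 1 R, ∑ e ∈ Icc 1 R,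
    if Nat.lcm d e ∣ n then lamS R d * lamS R e else 0 := by
  unfold nuS
  rw [sum_filter, sq, sum_mul_sum]
  refine sum_congr rfl fun d _ => sum_congr rfl fun e _ => ?_
  by_cases h1 : d ∣ n <;> by_cases h2 : e ∣ n <;> simp [h1, h2, Nat.lcm_dvd_iff]

/-- the kernel bound -/
theorem kernel_bound (R M : ℕ) (hR : 1 ≤ R) (L τ E : ℝ) (hE : 0 ≤ E)
    (hM : Real.exp (L + 1) ≤ M)
    (hblk : ∀ v, 0 ≤ v → v ≤ 1 → ∀ D : ℕ, 0 < D → D ≤ R ^ 2 → ‖blk τ 1 (Real.exp (L - v) / D)‖ ≤ E) :
    ‖∑ n ∈ Icc 1 M, ((1 / n * tent (Real.log n - L) * nuS R n : ℝ) : ℂ) * nit n τ‖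
      ≤ 5 / GS R * (1 / (1 + τ ^ 2)) + (R : ℝ) ^ 6 * E := by
  have hG := GS_ge_one R hR
  have e1 : ∑ n ∈ Icc 1 M, ((1 / n * tent (Real.log n - L) * nuS R n : ℝ) : ℂ) * nit n τ =
      ∑ d ∈ Icc 1 R, ∑ e ∈ Icc 1 R, ((lamS R d * lamS R e : ℝ) : ℂ) *
        ∑ n ∈ (Icc 1 M).filter (fun n => Nat.lcm d e ∣ n),
        ((1 / n * tent ((Real.log n - L) / 1) : ℝ) : ℂ) * nit n τ := by
    have h1 : ∀ n ∈ Icc 1 M, ((1 / n * tent (Real.log n - L) * nuS R n : ℝ) : ℂ) * nit n τ =
        ∑ d ∈ Icc 1 R, ∑ e ∈ Icc 1 R, (if Nat.lcm d e ∣ n then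
          ((lamS R d * lamS R e : ℝ) : ℂ) * (((1 / n * tent (Real.log n - L) : ℝ) : ℂ) * nit n τ) else 0) := by
      intro n _
      rw [nuS_eq]
      push_cast
      rw [mul_sum, sum_mul]
      refine sum_congr rfl fun d _ => ?_
      rw [mul_sum, sum_mul]
      refine sum_congr rfl fun e _ => ?_
      split_ifs
      · push_cast
        ring
      · simp
    rw [sum_congr rfl h1, sum_comm]
    refine sum_congr rfl fun d _ => ?_
    rw [sum_comm]
    refine sum_congr rfl fun e _ => ?_
    rw [sum_filter, mul_sum]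
    refine sum_congr rfl fun n _ => ?_
    rw [div_one]
    split_ifs
    · rfl
    · simp
  have e2 : (1 / (GS R : ℂ)) * mainH 1 L τ = ∑ d ∈ Icc 1 R, ∑ e ∈ Icc 1 R,
      ((lamS R d * lamS R e : ℝ) : ℂ) * ((1 / ((Nat.lcm d e : ℕ) : ℂ)) * mainH 1 L τ) := by
    have h1 := quad_form R hR
    have h2 : (1 / (GS R : ℂ)) = ((1 / GS R : ℝ) : ℂ) := by push_cast; rfl
    rw [h2, ← h1]
    push_cast
    rw [sum_mul]
    refine sum_congr rfl fun d _ => ?_
    rw [sum_mul]
    refine sum_congr rfl fun e _ => ?_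
    ring
  have e3 : ‖∑ n ∈ Icc 1 M, ((1 / n * tent (Real.log n - L) * nuS R n : ℝ) : ℂ) * nit n τ
      - (1 / (GS R : ℂ)) * mainH 1 L τ‖ ≤ (R : ℝ) ^ 6 * E := by
    rw [e1, e2, ← sum_sub_distrib]
    calc _ ≤ ∑ d ∈ Icc 1 R, ∑ e ∈ Icc 1 R, (R : ℝ) ^ 4 * E := by
          refine (norm_sum_le _ _).trans (sum_le_sum fun d hd => ?_)
          rw [← sum_sub_distrib]
          refine (norm_sum_le _ _).trans (sum_le_sum fun e he => ?_)
          rw [mem_Icc] at hd he
          rw [← mul_sub, norm_mul, Complex.norm_real, Real.norm_eq_abs, abs_mul]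
          have hlcm : 0 < Nat.lcm d e := Nat.lcm_pos hd.1 he.1
          have hlcm2 : Nat.lcm d e ≤ R ^ 2 := by
            calc Nat.lcm d e ≤ d * e := Nat.le_of_dvd (Nat.mul_pos hd.1 he.1) (Nat.lcm_dvd_mul d e)
              _ ≤ R * R := Nat.mul_le_mul hd.2 he.2
              _ = R ^ 2 := by ring
          have h1 := kernel 1 L τ E one_pos (Nat.lcm d e) M hlcm hM
            (fun v hv1 hv2 => hblk v hv1 hv2 _ hlcm hlcm2)
          have h2 : E / ((Nat.lcm d e : ℕ) : ℝ) ≤ E :=
            div_le_self hE (by exact_mod_cast hlcm)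
          have h3 := abs_lamS_le R d hR hd.2
          have h4 := abs_lamS_le R e hR he.2
          calc _ ≤ ((R : ℝ) ^ 2 * (R : ℝ) ^ 2) * E := by
                refine mul_le_mul ?_ (h1.trans h2) (norm_nonneg _) (by positivity)
                exact mul_le_mul h3 h4 (abs_nonneg _) (by positivity)
            _ = _ := by ring
      _ = _ := by
          simp only [sum_const, Nat.card_Icc, add_tsub_cancel_right, nsmul_eq_mul]
          ring
  have e4 : ‖(1 / (GS R : ℂ)) * mainH 1 L τ‖ ≤ 5 / GS R * (1 / (1 + τ ^ 2)) := by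
    rw [norm_mul, norm_div, norm_one, Complex.norm_real, Real.norm_of_nonneg (by linarith)]
    have := norm_mainH_le 1 L τ one_pos
    calc _ ≤ 1 / GS R * ((1 ^ 2 + 4) / 1 * (1 / (1 + τ ^ 2))) := by gcongr
      _ = _ := by ring
  calc _ = ‖(∑ n ∈ Icc 1 M, ((1 / n * tent (Real.log n - L) * nuS R n : ℝ) : ℂ) * nit n τ
      - (1 / (GS R : ℂ)) * mainH 1 L τ) + (1 / (GS R : ℂ)) * mainH 1 L τ‖ := by rw [sub_add_cancel]
    _ ≤ _ := norm_add_le _ _
    _ ≤ _ := by linarith

/-- Chebyshev for a window of primes -/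
theorem primes_window (P : Finset ℕ) (V : ℝ) (hV : 0 < V)
    (hP : ∀ p ∈ P, p.Prime ∧ Real.exp V ≤ p ∧ (p : ℝ) ≤ Real.exp (V + 1)) :
    ∑ p ∈ P, (1 : ℝ) / p ≤ 4 / V := by
  have h1 : (P.card : ℝ) * V ≤ Real.log 4 * Real.exp (V + 1) := by
    calc (P.card : ℝ) * V = ∑ p ∈ P, V := by simp
      _ ≤ ∑ p ∈ P, Real.log p := by
          refine sum_le_sum fun p hp => ?_
          rw [← Real.log_exp V]
          exact Real.log_le_log (Real.exp_pos _) (hP p hp).2.1
      _ ≤ Chebyshev.theta (Real.exp (V + 1)) := by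
          rw [Chebyshev.theta_eq_sum_Icc]
          refine sum_le_sum_of_subset_of_nonneg ?_ ?_
          · intro p hp
            rw [mem_filter, mem_Icc]
            exact ⟨⟨Nat.zero_le _, Nat.le_floor (hP p hp).2.2⟩, (hP p hp).1⟩
          · intro p hp _
            exact Real.log_natCast_nonneg p
      _ ≤ _ := Chebyshev.theta_le_log4_mul_x (Real.exp_pos _).le
  have h2 : ∑ p ∈ P, (1 : ℝ) / p ≤ P.card * Real.exp (-V) := by
    calc _ ≤ ∑ p ∈ P, Real.exp (-V) := by
          refine sum_le_sum fun p hp => ?_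
          rw [Real.exp_neg, one_div]
          exact inv_anti₀ (Real.exp_pos _) (hP p hp).2.1
      _ = _ := by simp
  have h3 : Real.log 4 * Real.exp 1 ≤ 4 := by
    have h4 : Real.log 4 = 2 * Real.log 2 := by
      rw [show (4 : ℝ) = 2 ^ 2 by norm_num, Real.log_pow]
      norm_num
    rw [h4]
    have := Real.log_two_lt_d9
    have := Real.exp_one_lt_d9
    have := Real.exp_pos 1
    have := Real.log_two_gt_d9
    nlinarith
  rw [le_div_iff₀ hV]
  calc _ ≤ (P.card * Real.exp (-V)) * V := by gcongr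
    _ = (P.card * V) * Real.exp (-V) := by ring
    _ ≤ (Real.log 4 * Real.exp (V + 1)) * Real.exp (-V) := by gcongr
    _ = Real.log 4 * Real.exp 1 * (Real.exp V * Real.exp (-V)) := by rw [Real.exp_add]; ring
    _ = Real.log 4 * Real.exp 1 := by rw [← Real.exp_add]; simp
    _ ≤ 4 := h3

theorem ph (h : StatementBE1) : StatementPH := by
  intro c₀ hc₀
  obtain ⟨Cs, hCs, hsp⟩ := spaced_sum
  -- normalise `c`
  set c : ℝ := min c₀ 1 with hcdef
  have hc : 0 < c := lt_min hc₀ one_pos
  have hc1 : c ≤ 1 := min_le_right _ _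
  have hcc : c ≤ c₀ := min_le_left _ _
  obtain ⟨C, δ₀, hC, hδ₀, hBE⟩ := h ⌈4 / c⌉₊
  set η : ℝ := min δ₀ 1 with hη
  have hη0 : 0 < η := lt_min hδ₀ one_pos
  have hη1 : η ≤ 1 := min_le_right _ _
  have hη2 : η ≤ δ₀ := min_le_left _ _
  refine ⟨8 * (320 * Cs + 16 * C + 16) / η, c * η / 8, Real.exp (8 / c), by positivity, by positivity, ?_⟩
  intro X V hX hV1 hV2 S hS1 hS2 hS3 P z hP hz
  have hX0 : 0 < X := (Real.exp_pos _).trans_le hX
  have hlogX : 8 / c ≤ Real.log X := by
    rw [Real.le_log_iff_exp_le hX0]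
    exact hX
  have hlogX0 : 0 < Real.log X := lt_of_lt_of_le (by positivity) hlogX
  have hVc : c * Real.log X ≤ V := by
    refine le_trans ?_ hV1
    exact mul_le_mul_of_nonneg_right hcc hlogX0.le
  have hV8 : 8 ≤ V := by
    refine le_trans ?_ hVc
    calc (8 : ℝ) = c * (8 / c) := by field_simp
      _ ≤ _ := mul_le_mul_of_nonneg_left hlogX hc.le
  have hV0 : 0 < V := by linarith
  set L : ℝ := V + 1 / 2 with hL
  set R : ℕ := ⌊Real.exp (η / 32 * V)⌋₊ with hRdef
  have hR : 1 ≤ R := by
    rw [hRdef, Nat.one_le_floor_iff]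
    exact Real.one_le_exp (by positivity)
  have hRle : (R : ℝ) ≤ Real.exp (η / 32 * V) := Nat.floor_le (Real.exp_pos _).le
  have hG := GS_ge_one R hR
  have hGlog : η * V / 64 ≤ GS R := by
    refine le_trans ?_ (GS_ge_log R)
    have : η / 32 * V ≤ Real.log (R + 1) := by
      rw [Real.le_log_iff_exp_le (by positivity)]
      exact (Nat.lt_floor_add_one _).le
    linarith
  set E : ℝ := (2 * C + 2) * Real.exp (-(η * V / 2)) with hE
  have hE0 : 0 ≤ E := by positivity
  set M : ℕ := ⌈Real.exp (L + 1)⌉₊ with hM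
  have hMle : Real.exp (L + 1) ≤ M := Nat.le_ceil _
  -- block bounds
  have hblk : ∀ τ : ℝ, |τ| ≤ 4 * X → ∀ v, 0 ≤ v → v ≤ 1 → ∀ D : ℕ, 0 < D → D ≤ R ^ 2 →
      ‖blk τ 1 (Real.exp (L - v) / D)‖ ≤ E := by
    intro τ hτ v hv0 hv1 D hD hDR
    set y : ℝ := Real.exp (L - v) / D with hy
    have hDr : (0 : ℝ) < D := by exact_mod_cast hD
    have hy1 : Real.exp (V / 2) + 1 ≤ y := by
      have h1 : (D : ℝ) ≤ Real.exp (V / 8) := by
        calc (D : ℝ) ≤ (R : ℝ) ^ 2 := by exact_mod_cast hDR
          _ ≤ (Real.exp (η / 32 * V)) ^ 2 := by gcongr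
          _ = Real.exp (η / 16 * V) := by rw [← Real.exp_nat_mul]; congr 1; push_cast; ring
          _ ≤ Real.exp (V / 8) := by
              apply Real.exp_le_exp.2
              nlinarith
      rw [hy, le_div_iff₀ hDr]
      calc (Real.exp (V / 2) + 1) * D ≤ (Real.exp (V / 2) + Real.exp (V / 2)) * Real.exp (V / 8) := by
            have : 1 ≤ Real.exp (V / 2) := Real.one_le_exp (by positivity)
            gcongr
        _ = 2 * Real.exp (V / 2 + V / 8) := by rw [Real.exp_add]; ring
        _ ≤ Real.exp 1 * Real.exp (V / 2 + V / 8) := by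
            have := Real.add_one_le_exp (1 : ℝ)
            gcongr
            linarith
        _ = Real.exp (1 + (V / 2 + V / 8)) := by rw [Real.exp_add 1]
        _ ≤ Real.exp (L - v) := by
            apply Real.exp_le_exp.2
            rw [hL]
            linarith
    have hy1' : 1 ≤ y := by
      have := Real.exp_pos (V / 2)
      linarith
    have hfl : Real.exp (V / 2) ≤ (⌊y⌋₊ : ℝ) := by
      have := Nat.sub_one_lt_floor y
      linarith
    have hfl0 : ∀ a : ℕ, ⌊y⌋₊ ≤ a → (1 : ℝ) ≤ a ∧ Real.exp (V / 2) ≤ a := by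
      intro a ha
      have h1 : ((⌊y⌋₊ : ℕ) : ℝ) ≤ a := by exact_mod_cast ha
      have h2 : 1 ≤ Real.exp (V / 2) := Real.one_le_exp (by positivity)
      exact ⟨by linarith, by linarith⟩
    have hb := blk_bound τ 1 y one_pos hy1' (fun a => C * (a : ℝ) ^ (-η)) 2
      (by
        have := Real.exp_one_lt_d9
        norm_num
        linarith)
      (by
        intro a b ha hab
        have h1 := hfl0 a ha
        have h2 : (a : ℝ) ≤ b := by exact_mod_cast hab
        refine mul_le_mul_of_nonneg_left ?_ hC.le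
        exact Real.rpow_le_rpow_of_nonpos (by linarith) h2 (by linarith))
      (by
        intro a _
        positivity)
      (by
        intro a b ha hab hab4
        have h1 := hfl0 a ha
        have ha1 : 1 ≤ a := by exact_mod_cast h1.1
        have h2 : |τ| ≤ (a : ℝ) ^ ⌈4 / c⌉₊ := by
          refine hτ.trans ?_
          calc 4 * X ≤ X * X := by
                have : 4 ≤ X := by
                  refine le_trans ?_ hX
                  have h3 : (4 : ℝ) ≤ 8 / c + 1 := by
                    have : (8 : ℝ) ≤ 8 / c := by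
                      rw [le_div_iff₀ hc]
                      nlinarith
                    linarith
                  exact h3.trans (Real.add_one_le_exp _)
                nlinarith
            _ = Real.exp (2 * Real.log X) := by
                rw [two_mul, Real.exp_add, Real.exp_log hX0]
            _ ≤ Real.exp ((⌈4 / c⌉₊ : ℝ) * (V / 2)) := by
                apply Real.exp_le_exp.2
                have h4 : 4 / c ≤ (⌈4 / c⌉₊ : ℝ) := Nat.le_ceil _
                calc 2 * Real.log X = 4 / c * (c * Real.log X / 2) := by field_simp; ring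
                  _ ≤ (⌈4 / c⌉₊ : ℝ) * (V / 2) := by
                    refine mul_le_mul h4 (by linarith) (by positivity) (by positivity)
            _ = (Real.exp (V / 2)) ^ ⌈4 / c⌉₊ := by rw [Real.exp_nat_mul]
            _ ≤ _ := by
                have := h1.2
                gcongr
        have h3 := hBE a b 0 0 τ ha1 hab hab4 le_rfl zero_le_one le_rfl zero_le_one h2
        have e1 : ∑ n ∈ Ioc a b, gx τ n = ∑ n ∈ Finset.Ioc a b, (((n : ℝ) + 0 : ℝ) : ℂ) ^
            (-(1 + (0 : ℝ) : ℂ) - τ * Complex.I) := by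
          refine sum_congr rfl fun n hn => ?_
          rw [mem_Ioc] at hn
          have hn0 : (0 : ℝ) < n := by
            have : 0 < n := by omega
            exact_mod_cast this
          rw [gx_eq_cpow τ n hn0]
          simp
        have e2 : ∫ x in (a : ℝ)..b, gx τ x = ∫ x in (a : ℝ)..b, ((x + 0 : ℝ) : ℂ) ^
            (-(1 + (0 : ℝ) : ℂ) - τ * Complex.I) := by
          refine intervalIntegral.integral_congr fun x hx => ?_
          have hab' : (a : ℝ) ≤ b := by exact_mod_cast hab
          rw [Set.uIcc_of_le hab', Set.mem_Icc] at hx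
          have hx0 : 0 < x := by linarith [h1.1]
          rw [gx_eq_cpow τ x hx0]
          simp
        rw [e1, e2]
        refine h3.trans ?_
        refine mul_le_mul_of_nonneg_left ?_ hC.le
        exact Real.rpow_le_rpow_of_exponent_le h1.1 (by linarith))
    refine hb.trans ?_
    have h1 := hfl0 ⌊y⌋₊ le_rfl
    have h2 : ((⌊y⌋₊ : ℕ) : ℝ) ^ (-η) ≤ Real.exp (-(η * V / 2)) := by
      calc ((⌊y⌋₊ : ℕ) : ℝ) ^ (-η) ≤ (Real.exp (V / 2)) ^ (-η) :=
            Real.rpow_le_rpow_of_nonpos (Real.exp_pos _) h1.2 (by linarith)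
        _ = Real.exp (-(η * V / 2)) := by
            rw [← Real.exp_mul]
            congr 1
            ring
    have h3 : 2 / ((⌊y⌋₊ : ℕ) : ℝ) ≤ 2 * Real.exp (-(η * V / 2)) := by
      rw [div_eq_mul_inv]
      refine mul_le_mul_of_nonneg_left ?_ (by norm_num)
      calc (((⌊y⌋₊ : ℕ) : ℝ))⁻¹ ≤ (Real.exp (V / 2))⁻¹ := inv_anti₀ (Real.exp_pos _) h1.2
        _ = Real.exp (-(V / 2)) := by rw [Real.exp_neg]
        _ ≤ _ := by
            apply Real.exp_le_exp.2
            nlinarith
    rw [hE]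
    push_cast
    nlinarith
  -- kernel
  have hker : ∀ τ : ℝ, |τ| ≤ 4 * X →
      ‖∑ n ∈ Icc 1 M, ((1 / n * tent (Real.log n - L) * nuS R n : ℝ) : ℂ) * nit n τ‖
      ≤ 5 / GS R * (1 / (1 + τ ^ 2)) + (R : ℝ) ^ 6 * E :=
    fun τ hτ => kernel_bound R M hR L τ E hE0 hMle (hblk τ hτ)
  -- dual
  have hR6 : (R : ℝ) ^ 6 * E ≤ (2 * C + 2) * Real.exp (-(η * V / 4)) := by
    calc (R : ℝ) ^ 6 * E ≤ (Real.exp (η / 32 * V)) ^ 6 * E := by gcongr
      _ = (2 * C + 2) * (Real.exp (6 * (η / 32 * V)) * Real.exp (-(η * V / 2))) := by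
          rw [hE, ← Real.exp_nat_mul]
          push_cast
          ring
      _ = (2 * C + 2) * Real.exp (6 * (η / 32 * V) + -(η * V / 2)) := by rw [← Real.exp_add]
      _ ≤ _ := by
          refine mul_le_mul_of_nonneg_left (Real.exp_le_exp.2 ?_) (by positivity)
          have : 0 ≤ η * V := by positivity
          linarith
  have hcard : (S.card : ℝ) ≤ Real.exp (η * V / 8) := by
    refine hS3.trans ?_
    rw [Real.rpow_def_of_pos hX0]
    apply Real.exp_le_exp.2
    calc Real.log X * (c * η / 8) = (c * Real.log X) * (η / 8) := by ring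
      _ ≤ V * (η / 8) := mul_le_mul_of_nonneg_right hVc (by positivity)
      _ = _ := by ring
  have hfin : (S.card : ℝ) * ((R : ℝ) ^ 6 * E) ≤ (2 * C + 2) * (8 / (η * V)) := by
    calc (S.card : ℝ) * ((R : ℝ) ^ 6 * E)
        ≤ Real.exp (η * V / 8) * ((2 * C + 2) * Real.exp (-(η * V / 4))) := by
          refine mul_le_mul hcard hR6 (by positivity) (Real.exp_pos _).le
      _ = (2 * C + 2) * (Real.exp (η * V / 8) * Real.exp (-(η * V / 4))) := by ring
      _ = (2 * C + 2) * Real.exp (-(η * V / 8)) := by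
          rw [← Real.exp_add]
          congr 2
          ring
      _ ≤ _ := by
          refine mul_le_mul_of_nonneg_left ?_ (by positivity)
          rw [Real.exp_neg]
          have h1 : η * V / 8 ≤ Real.exp (η * V / 8) := by
            have := Real.add_one_le_exp (η * V / 8)
            linarith
          calc (Real.exp (η * V / 8))⁻¹ ≤ (η * V / 8)⁻¹ := inv_anti₀ (by positivity) h1
            _ = 8 / (η * V) := by rw [inv_div]
  set w : ℕ → ℝ := fun n => 1 / n * tent (Real.log n - L) * nuS R n with hw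
  set a : ℕ → ℂ := fun n => if n ∈ P then z n / n else 0 with ha
  have hRV : (R : ℝ) < Real.exp V := by
    refine lt_of_le_of_lt hRle (Real.exp_lt_exp.2 ?_)
    nlinarith
  have hPM : P ⊆ Icc 1 M := by
    intro p hp
    obtain ⟨h1, _, h3⟩ := hP p hp
    rw [mem_Icc]
    refine ⟨h1.one_lt.le, ?_⟩
    have : (p : ℝ) ≤ M := h3.trans ((Real.exp_le_exp.2 (by rw [hL]; linarith)).trans hMle)
    exact_mod_cast this
  have hwP : ∀ p ∈ P, 1 / (2 * (p : ℝ)) ≤ w p := by
    intro p hp
    obtain ⟨h1, h2, h3⟩ := hP p hp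
    have hp0 : (0 : ℝ) < p := by exact_mod_cast h1.pos
    have hnu : nuS R p = 1 := by
      refine nuS_prime R p hR h1 ?_
      have : (R : ℝ) < p := hRV.trans_le h2
      exact_mod_cast this
    have ht : 1 / 2 ≤ tent (Real.log p - L) := by
      unfold tent
      refine le_trans ?_ (le_max_right _ _)
      have h4 : V ≤ Real.log p := by
        rw [Real.le_log_iff_exp_le hp0]
        exact h2
      have h5 : Real.log p ≤ V + 1 := by
        rw [Real.log_le_iff_le_exp hp0]
        exact h3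
      have h6 : |Real.log p - L| ≤ 1 / 2 := by
        rw [abs_le, hL]
        constructor <;> linarith
      linarith
    change _ ≤ 1 / (p : ℝ) * tent (Real.log p - L) * nuS R p
    rw [hnu, mul_one]
    calc 1 / (2 * (p : ℝ)) = 1 / (p : ℝ) * (1 / 2) := by field_simp
      _ ≤ _ := mul_le_mul_of_nonneg_left ht (by positivity)
  have hdual := dual S (Icc 1 M) a w ((320 * Cs + 16 * C + 16) / (η * V)) (8 / V)
    (by
      intro n _
      refine mul_nonneg (mul_nonneg (by positivity) ?_) (nuS_nonneg _ _)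
      exact le_max_left _ _)
    (by
      intro n _ hn
      have hnP : n ∈ P := by
        by_contra hcon
        exact hn (if_neg hcon)
      have hn0 : (0 : ℝ) < n := by exact_mod_cast (hP n hnP).1.pos
      exact lt_of_lt_of_le (by positivity) (hwP n hnP))
    (by positivity)
    (by
      intro t ht
      have h1 : ∀ s ∈ S, ‖∑ n ∈ Icc 1 M, (w n : ℂ) * nit n (t - s)‖ ≤
          5 / GS R * (1 / (1 + (t - s) ^ 2)) + (R : ℝ) ^ 6 * E := by
        intro s hs
        refine hker (t - s) ?_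
        calc |t - s| ≤ |t| + |s| := abs_sub _ _
          _ ≤ 2 * X + 2 * X := add_le_add (hS1 t ht) (hS1 s hs)
          _ = 4 * X := by ring
      calc _ ≤ ∑ s ∈ S, (5 / GS R * (1 / (1 + (t - s) ^ 2)) + (R : ℝ) ^ 6 * E) := sum_le_sum h1
        _ = 5 / GS R * ∑ s ∈ S, 1 / (1 + (t - s) ^ 2) + S.card * ((R : ℝ) ^ 6 * E) := by
            rw [sum_add_distrib, ← mul_sum]
            simp
        _ ≤ 5 / (η * V / 64) * Cs + (2 * C + 2) * (8 / (η * V)) := by
            have h2 := hsp S t hS2
            have h3 : 0 ≤ ∑ s ∈ S, 1 / (1 + (t - s) ^ 2) := sum_nonneg fun _ _ => by positivity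
            have h4 : 5 / GS R ≤ 5 / (η * V / 64) := by
              refine div_le_div_of_nonneg_left (by norm_num) (by positivity) hGlog
            refine add_le_add (mul_le_mul h4 h2 h3 (by positivity)) hfin
        _ = _ := by
            field_simp
            ring)
    (by
      calc ∑ n ∈ Icc 1 M, ‖a n‖ ^ 2 / w n = ∑ n ∈ P, ‖a n‖ ^ 2 / w n := by
            symm
            refine sum_subset hPM fun n _ hn => ?_
            rw [ha]
            simp [hn]
        _ ≤ ∑ p ∈ P, 2 * ((1 : ℝ) / p) := by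
            refine sum_le_sum fun p hp => ?_
            have hp0 : (0 : ℝ) < p := by exact_mod_cast (hP p hp).1.pos
            have h1 : ‖a p‖ ≤ 1 / p := by
              rw [ha]
              simp only [hp, if_true]
              rw [norm_div, Complex.norm_natCast]
              exact div_le_div_of_nonneg_right (hz p) hp0.le
            have h2 := hwP p hp
            have h3 : 0 < w p := lt_of_lt_of_le (by positivity) h2
            calc ‖a p‖ ^ 2 / w p ≤ (1 / (p : ℝ)) ^ 2 / (1 / (2 * (p : ℝ))) := by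
                  refine div_le_div₀ (by positivity) ?_ (by positivity) h2
                  exact pow_le_pow_left₀ (norm_nonneg _) h1 2
              _ = 2 * ((1 : ℝ) / p) := by field_simp
        _ = 2 * ∑ p ∈ P, (1 : ℝ) / p := by rw [mul_sum]
        _ ≤ 2 * (4 / V) := mul_le_mul_of_nonneg_left (primes_window P V hV0 hP) (by norm_num)
        _ = 8 / V := by ring)
  have hrew : ∀ t : ℝ, ∑ n ∈ Icc 1 M, a n * nit n t = ∑ p ∈ P, z p / p * nit p t := by
    intro t
    have h1 : ∑ p ∈ P, z p / p * nit p t = ∑ p ∈ P, a p * nit p t := by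
      refine sum_congr rfl fun p hp => ?_
      rw [ha]
      simp only [hp, if_true]
    rw [h1]
    symm
    refine sum_subset hPM fun n _ hn => ?_
    rw [ha]
    simp [hn]
  simp only [hrew] at hdual
  refine hdual.trans (le_of_eq ?_)
  field_simp

end Pool.Agent.H37.MR
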